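import Pool.Agent.Helper57.QuadCore

/-! # A dimension-uniform lower bound for integration on the rotation-invariant `C²` class -/

set_option autoImplicit false

namespace Pool.Agent.Results.MP_dca26c_an.Full

open MeasureTheory
open scoped ENNReal

/-- `Lip(g) ≤ K` on the set `D`, with respect to the Euclidean distance. -/
def LipLE {d : ℕ} (D : Set (EuclideanSpace ℝ (Fin d))) (g : EuclideanSpace ℝ (Fin d) → ℝ) (K : ℝ) : Prop :=
  ∀ y ∈ D, ∀ z ∈ D, |g y - g z| ≤ K * ‖y - z‖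

/-- The class: `C²` on `D`, bounded by `1`, Lipschitz constant at most `d ^ (-1/2)`, all directional derivatives
in unit directions with Lipschitz constant at most `1 / d`. -/
def Cls (d : ℕ) (D : Set (EuclideanSpace ℝ (Fin d))) : Set (EuclideanSpace ℝ (Fin d) → ℝ) :=
  {f | ContDiffOn ℝ 2 f D ∧ (∀ y ∈ D, |f y| ≤ 1) ∧ LipLE D f ((d : ℝ) ^ (-(1 : ℝ) / 2)) ∧
    ∀ θ : EuclideanSpace ℝ (Fin d), ‖θ‖ = 1 → LipLE D (fun y => lineDeriv ℝ f y θ) ((d : ℝ)⁻¹)}

/-- The `n`-th minimal worst-case error: infimum over the nodes `x i ∈ D` and the real weights `a i` of the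
supremum over the class of `|∫ f over D - ∑ a i * f (x i)|`. -/
noncomputable def minErr (d : ℕ) (D : Set (EuclideanSpace ℝ (Fin d))) (n : ℕ) : ℝ≥0∞ :=
  ⨅ (x : Fin n → D) (a : Fin n → ℝ), ⨆ f ∈ Cls d D,
    ENNReal.ofReal |(∫ y in D, f y) - ∑ i, a i * f (x i)|

/-- A rule for choosing `n` nodes adaptively: the node `i` may depend on the values at the earlier nodes only. -/
def IsAdaptive {d n : ℕ} (N : Fin n → (Fin n → ℝ) → EuclideanSpace ℝ (Fin d)) : Prop :=
  ∀ i, ∀ y z : Fin n → ℝ, (∀ j < i, y j = z j) → N i y = N i z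

/-- `y` is the vector of function values which the node rule `N` finds for the function `f`. -/
def IsInfo {d n : ℕ} (N : Fin n → (Fin n → ℝ) → EuclideanSpace ℝ (Fin d))
    (f : EuclideanSpace ℝ (Fin d) → ℝ) (y : Fin n → ℝ) : Prop :=
  ∀ i, y i = f (N i y)

/-- **Theorem.** With `C = 1 / (256 π e)`: for all `d, n ≥ 1` and all open `D` of volume `1` the `n`-th minimal
error is at least `C n ^ (-2/d)`; and every deterministic algorithm with `n` adaptively chosen nodes in `D` and any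
output map has an error at least `C n ^ (-2/d)` for some `f` of the class. -/
theorem result (d n : ℕ) (hd : 1 ≤ d) (hn : 1 ≤ n) (D : Set (EuclideanSpace ℝ (Fin d))) (hD : IsOpen D)
    (hv : volume D = 1) :
    ENNReal.ofReal (1 / (256 * Real.pi * Real.exp 1) * (n : ℝ) ^ (-(2 : ℝ) / d)) ≤ minErr d D n ∧
    ∀ N : Fin n → (Fin n → ℝ) → EuclideanSpace ℝ (Fin d), IsAdaptive N → (∀ i y, N i y ∈ D) →
      ∀ out : (Fin n → ℝ) → ℝ, ∃ f ∈ Cls d D, ∃ y : Fin n → ℝ, IsInfo N f y ∧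
        1 / (256 * Real.pi * Real.exp 1) * (n : ℝ) ^ (-(2 : ℝ) / d) ≤ |(∫ z in D, f z) - out y| := by
  have hd0 : (0 : ℝ) < d := by exact_mod_cast hd
  have hsq : (d : ℝ) ^ (-(1 : ℝ) / 2) = (Real.sqrt (d : ℝ))⁻¹ := by
    rw [neg_div, Real.rpow_neg hd0.le, Real.sqrt_eq_rpow]
  -- functions with global bounds are in the class, and so are their negatives
  have hmem : ∀ f : EuclideanSpace ℝ (Fin d) → ℝ, ContDiff ℝ 2 f → (∀ y, |f y| ≤ 1) →
      (∀ y z, |f y - f z| ≤ (Real.sqrt (d : ℝ))⁻¹ * dist y z) →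
      (∀ θ : EuclideanSpace ℝ (Fin d), ‖θ‖ = 1 → ∀ y z,
        |fderiv ℝ f y θ - fderiv ℝ f z θ| ≤ ((d : ℝ))⁻¹ * dist y z) → f ∈ Cls d D := by
    intro f h1 h2 h3 h4
    refine ⟨h1.contDiffOn, fun y _ => h2 y, fun y _ z _ => ?_, fun θ hθ y _ z _ => ?_⟩
    · rw [hsq, ← dist_eq_norm]
      exact h3 y z
    · have h5 : ∀ y, lineDeriv ℝ f y θ = fderiv ℝ f y θ := fun y =>
        (h1.differentiable (by norm_num) y).lineDeriv_eq_fderiv
      simp only [h5]
      rw [← dist_eq_norm]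
      exact h4 θ hθ y z
  have key : ∀ x : Fin n → EuclideanSpace ℝ (Fin d), ∃ f : EuclideanSpace ℝ (Fin d) → ℝ,
      f ∈ Cls d D ∧ (fun y => - f y) ∈ Cls d D ∧ (∀ i, f (x i) = 0) ∧
      1 / (256 * Real.pi * Real.exp 1) * (n : ℝ) ^ (-(2 : ℝ) / d) ≤ ∫ y in D, f y := by
    intro x
    obtain ⟨f, h1, h2, h3, h4, h5, h6⟩ :=
      Pool.Agent.Helper57.QuadCore.core d hd D hD.measurableSet hv n hn x
    refine ⟨f, hmem f h1 (fun y => ?_) h3 h4, hmem _ h1.neg (fun y => ?_) (fun y z => ?_)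
      (fun θ hθ y z => ?_), h5, h6⟩
    · rw [abs_of_nonneg (h2 y).1]; exact (h2 y).2
    · rw [abs_neg, abs_of_nonneg (h2 y).1]; exact (h2 y).2
    · rw [show - f y - - f z = -(f y - f z) by ring, abs_neg]; exact h3 y z
    · have h7 : ∀ y, fderiv ℝ (fun y => - f y) y θ = - fderiv ℝ f y θ := by
        intro y
        have : fderiv ℝ (fun y => - f y) y = - fderiv ℝ f y := fderiv_fun_neg
        rw [this]
        rfl
      rw [h7, h7, show - fderiv ℝ f y θ - - fderiv ℝ f z θ = -(fderiv ℝ f y θ - fderiv ℝ f z θ) by ring, abs_neg]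
      exact h4 θ hθ y z
  refine ⟨?_, fun N _ _ out => ?_⟩
  · refine le_iInf fun x => le_iInf fun a => ?_
    obtain ⟨f, h1, -, h3, h4⟩ := key fun i => (x i : EuclideanSpace ℝ (Fin d))
    refine le_iSup₂_of_le f h1 (ENNReal.ofReal_le_ofReal ?_)
    have h5 : ∑ i, a i * f (x i) = 0 := Finset.sum_eq_zero fun i _ => by rw [h3 i, mul_zero]
    rw [h5, sub_zero]
    exact h4.trans (le_abs_self _)
  · obtain ⟨f, h1, h2, h3, h4⟩ := key fun i => N i 0
    by_cases hs : out 0 ≤ 0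
    · refine ⟨f, h1, 0, fun i => (h3 i).symm, h4.trans ?_⟩
      exact le_trans (by linarith) (le_abs_self _)
    · refine ⟨fun y => - f y, h2, 0, fun i => ?_, h4.trans ?_⟩
      · show (0 : ℝ) = - f (N i 0)
        rw [h3 i, neg_zero]
      · rw [integral_neg]
        refine le_trans ?_ (neg_le_abs _)
        push Not at hs
        linarith

end Pool.Agent.Results.MP_dca26c_an.Full
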